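import Pool.Agent.Helper767_G4.Psi

/-!
# The derivatives of the digamma function at `1/4` and `3/4`
-/

set_option autoImplicit false

open Filter Topology Set

namespace Pool.Agent.Helper767_G4

open Pool.Agent.R352.E (psi pd pdx Gamma_deriv zt clF subset_clF clF_mono clF_le of_pow rat_mem)
open Pool.Agent.R352.T (summ_one summ_half zt_odd)

/-- `β(k) = ∑ (-1)^n / (2n+1)^k` -/
noncomputable def be (k : ℕ) : ℝ := ∑' n : ℕ, (-1 : ℝ) ^ n / (2 * (n : ℝ) + 1) ^ k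

lemma summ_odd (k : ℕ) (hk : 2 ≤ k) : Summable (fun n : ℕ => 1 / (2 * (n : ℝ) + 1) ^ k) := by
  refine ((summ_one k hk).comp_injective (i := fun n : ℕ => 2 * n) (fun a b h => by
    have : 2 * a = 2 * b := h
    omega)).congr fun n => ?_
  simp only [Function.comp_apply]
  push_cast
  rfl

lemma summ_41 (k : ℕ) (hk : 2 ≤ k) : Summable (fun n : ℕ => 1 / (4 * (n : ℝ) + 1) ^ k) := by
  refine ((summ_odd k hk).comp_injective (i := fun n : ℕ => 2 * n) (fun a b h => by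
    have : 2 * a = 2 * b := h
    omega)).congr fun n => ?_
  simp only [Function.comp_apply]
  push_cast
  ring_nf

lemma summ_43 (k : ℕ) (hk : 2 ≤ k) : Summable (fun n : ℕ => 1 / (4 * (n : ℝ) + 3) ^ k) := by
  refine ((summ_odd k hk).comp_injective (i := fun n : ℕ => 2 * n + 1) (fun a b h => by
    have : 2 * a + 1 = 2 * b + 1 := h
    omega)).congr fun n => ?_
  simp only [Function.comp_apply]
  push_cast
  ring_nf

lemma summ_alt (k : ℕ) (hk : 2 ≤ k) : Summable (fun n : ℕ => (-1 : ℝ) ^ n / (2 * (n : ℝ) + 1) ^ k) := by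
  refine Summable.of_norm ?_
  refine (summ_odd k hk).congr fun n => ?_
  rw [norm_div, norm_pow, norm_neg, norm_one, one_pow, norm_pow, Real.norm_of_nonneg (by positivity)]

lemma sum_AB (k : ℕ) (hk : 2 ≤ k) : (∑' n : ℕ, 1 / (4 * (n : ℝ) + 1) ^ k) + ∑' n : ℕ, 1 / (4 * (n : ℝ) + 3) ^ k =
    (1 - 1 / 2 ^ k) * zt k := by
  have h1 := summ_odd k hk
  have he : Summable (fun n : ℕ => (fun n : ℕ => 1 / (2 * (n : ℝ) + 1) ^ k) (2 * n)) :=
    h1.comp_injective (i := fun n : ℕ => 2 * n) (fun a b h => by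
      have : 2 * a = 2 * b := h
      omega)
  have ho : Summable (fun n : ℕ => (fun n : ℕ => 1 / (2 * (n : ℝ) + 1) ^ k) (2 * n + 1)) :=
    h1.comp_injective (i := fun n : ℕ => 2 * n + 1) (fun a b h => by
      have : 2 * a + 1 = 2 * b + 1 := h
      omega)
  have h3 := tsum_even_add_odd (f := fun n : ℕ => 1 / (2 * (n : ℝ) + 1) ^ k) he ho
  have e1 : (∑' n : ℕ, (fun n : ℕ => 1 / (2 * (n : ℝ) + 1) ^ k) (2 * n)) = ∑' n : ℕ, 1 / (4 * (n : ℝ) + 1) ^ k := by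
    refine tsum_congr fun n => ?_
    push_cast
    ring_nf
  have e2 : (∑' n : ℕ, (fun n : ℕ => 1 / (2 * (n : ℝ) + 1) ^ k) (2 * n + 1)) = ∑' n : ℕ, 1 / (4 * (n : ℝ) + 3) ^ k := by
    refine tsum_congr fun n => ?_
    push_cast
    ring_nf
  have e3 : (∑' n : ℕ, 1 / (2 * (n : ℝ) + 1) ^ k) = (1 - 1 / 2 ^ k) * zt k := by
    have h4 := zt_odd k hk
    have h5 : (∑' n : ℕ, 1 / ((n : ℝ) + 1 / 2) ^ k) = 2 ^ k * ∑' n : ℕ, 1 / (2 * (n : ℝ) + 1) ^ k := by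
      rw [← tsum_mul_left]
      refine tsum_congr fun n => ?_
      have : (2 * (n : ℝ) + 1) = 2 * ((n : ℝ) + 1 / 2) := by ring
      rw [this, mul_pow]
      field_simp
    rw [h5] at h4
    have h6 : (2 : ℝ) ^ k ≠ 0 := by positivity
    field_simp
    linarith
  rw [← e1, ← e2, h3, e3]

lemma sub_AB (k : ℕ) (hk : 2 ≤ k) : (∑' n : ℕ, 1 / (4 * (n : ℝ) + 1) ^ k) - ∑' n : ℕ, 1 / (4 * (n : ℝ) + 3) ^ k = be k := by
  have h1 := summ_alt k hk
  have he : Summable (fun n : ℕ => (fun n : ℕ => (-1 : ℝ) ^ n / (2 * (n : ℝ) + 1) ^ k) (2 * n)) :=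
    h1.comp_injective (i := fun n : ℕ => 2 * n) (fun a b h => by
      have : 2 * a = 2 * b := h
      omega)
  have ho : Summable (fun n : ℕ => (fun n : ℕ => (-1 : ℝ) ^ n / (2 * (n : ℝ) + 1) ^ k) (2 * n + 1)) :=
    h1.comp_injective (i := fun n : ℕ => 2 * n + 1) (fun a b h => by
      have : 2 * a + 1 = 2 * b + 1 := h
      omega)
  have h3 := tsum_even_add_odd (f := fun n : ℕ => (-1 : ℝ) ^ n / (2 * (n : ℝ) + 1) ^ k) he ho
  have e1 : (∑' n : ℕ, (fun n : ℕ => (-1 : ℝ) ^ n / (2 * (n : ℝ) + 1) ^ k) (2 * n)) = ∑' n : ℕ, 1 / (4 * (n : ℝ) + 1) ^ k := by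
    refine tsum_congr fun n => ?_
    simp only [pow_mul, neg_one_sq, one_pow]
    push_cast
    ring_nf
  have e2 : (∑' n : ℕ, (fun n : ℕ => (-1 : ℝ) ^ n / (2 * (n : ℝ) + 1) ^ k) (2 * n + 1)) =
      -∑' n : ℕ, 1 / (4 * (n : ℝ) + 3) ^ k := by
    rw [← tsum_neg]
    refine tsum_congr fun n => ?_
    simp only [pow_succ, pow_mul]
    push_cast
    ring_nf
  rw [be, ← h3, e1, e2]
  ring

lemma hur4 (k : ℕ) (hk : 2 ≤ k) : ∑' n : ℕ, 1 / ((n : ℝ) + 1 / 4) ^ k = (4 ^ k - 2 ^ k) / 2 * zt k + 4 ^ k / 2 * be k := by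
  have h1 : ∑' n : ℕ, 1 / ((n : ℝ) + 1 / 4) ^ k = 4 ^ k * ∑' n : ℕ, 1 / (4 * (n : ℝ) + 1) ^ k := by
    rw [← tsum_mul_left]
    refine tsum_congr fun n => ?_
    have : (4 * (n : ℝ) + 1) = 4 * ((n : ℝ) + 1 / 4) := by ring
    rw [this, mul_pow]
    field_simp
  have h2 := sum_AB k hk
  have h3 := sub_AB k hk
  have h4 : (4 : ℝ) ^ k = 2 ^ k * 2 ^ k := by rw [← mul_pow]; norm_num
  have h5 : (∑' n : ℕ, 1 / (4 * (n : ℝ) + 1) ^ k) = ((1 - 1 / 2 ^ k) * zt k + be k) / 2 := by linarith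
  rw [h1, h5, h4]
  have h6 : (2 : ℝ) ^ k ≠ 0 := by positivity
  field_simp

lemma hur34 (k : ℕ) (hk : 2 ≤ k) : ∑' n : ℕ, 1 / ((n : ℝ) + 3 / 4) ^ k = (4 ^ k - 2 ^ k) / 2 * zt k - 4 ^ k / 2 * be k := by
  have h1 : ∑' n : ℕ, 1 / ((n : ℝ) + 3 / 4) ^ k = 4 ^ k * ∑' n : ℕ, 1 / (4 * (n : ℝ) + 3) ^ k := by
    rw [← tsum_mul_left]
    refine tsum_congr fun n => ?_
    have : (4 * (n : ℝ) + 3) = 4 * ((n : ℝ) + 3 / 4) := by ring
    rw [this, mul_pow]
    field_simp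
  have h2 := sum_AB k hk
  have h3 := sub_AB k hk
  have h4 : (4 : ℝ) ^ k = 2 ^ k * 2 ^ k := by rw [← mul_pow]; norm_num
  have h5 : (∑' n : ℕ, 1 / (4 * (n : ℝ) + 3) ^ k) = ((1 - 1 / 2 ^ k) * zt k - be k) / 2 := by linarith
  rw [h1, h5, h4]
  have h6 : (2 : ℝ) ^ k ≠ 0 := by positivity
  field_simp

/-- the values of the derivatives of the digamma function at `1/4` -/
noncomputable def c4 : ℕ → ℝ
  | 0 => -(Real.eulerMascheroniConstant + 3 * Real.log 2 + Real.pi / 2)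
  | (i + 1) => (-1) ^ i * (i + 1).factorial * ((4 ^ (i + 2) - 2 ^ (i + 2)) / 2 * zt (i + 2) + 4 ^ (i + 2) / 2 * be (i + 2))

/-- the values of the derivatives of the digamma function at `3/4` -/
noncomputable def c34 : ℕ → ℝ
  | 0 => -(Real.eulerMascheroniConstant + 3 * Real.log 2 - Real.pi / 2)
  | (i + 1) => (-1) ^ i * (i + 1).factorial * ((4 ^ (i + 2) - 2 ^ (i + 2)) / 2 * zt (i + 2) - 4 ^ (i + 2) / 2 * be (i + 2))

lemma pdx_gen (a : ℝ) (i : ℕ) (hs : Summable (fun n : ℕ => 1 / ((n : ℝ) + a) ^ (i + 2))) :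
    pdx i (a : ℂ) = (((-1) ^ i * (i + 1).factorial * ∑' n : ℕ, 1 / ((n : ℝ) + a) ^ (i + 2) : ℝ) : ℂ) := by
  have h3 : (1 : ℝ) / a ^ (i + 2) + ∑' n : ℕ, 1 / (a + ((n : ℝ) + 1)) ^ (i + 2) =
      ∑' n : ℕ, 1 / ((n : ℝ) + a) ^ (i + 2) := by
    rw [← hs.sum_add_tsum_nat_add 1]
    simp only [Finset.sum_range_succ, Finset.sum_range_zero]
    congr 1
    · norm_num
    · refine tsum_congr fun n => ?_
      push_cast
      ring_nf
  rw [pdx, ← h3]
  push_cast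
  rfl

lemma pd4 (i : ℕ) : pd i (((1 / 4 : ℝ) : ℝ) : ℂ) = ((c4 i : ℝ) : ℂ) := by
  cases i with
  | zero =>
    have : (((1 / 4 : ℝ) : ℝ) : ℂ) = 1 / 4 := by push_cast; rfl
    rw [this]
    exact psi4
  | succ i =>
    have hs : Summable (fun n : ℕ => 1 / ((n : ℝ) + 1 / 4) ^ (i + 2)) := by
      refine ((summ_41 (i + 2) (by omega)).mul_left (4 ^ (i + 2))).congr fun n => ?_
      have : (4 * (n : ℝ) + 1) = 4 * ((n : ℝ) + 1 / 4) := by ring
      rw [this, mul_pow]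
      field_simp
    have h := pdx_gen (1 / 4) i hs
    rw [hur4 (i + 2) (by omega)] at h
    exact h

lemma pd34 (i : ℕ) : pd i (((3 / 4 : ℝ) : ℝ) : ℂ) = ((c34 i : ℝ) : ℂ) := by
  cases i with
  | zero =>
    have : (((3 / 4 : ℝ) : ℝ) : ℂ) = 3 / 4 := by push_cast; rfl
    rw [this]
    exact psi34
  | succ i =>
    have hs : Summable (fun n : ℕ => 1 / ((n : ℝ) + 3 / 4) ^ (i + 2)) := by
      refine ((summ_43 (i + 2) (by omega)).mul_left (4 ^ (i + 2))).congr fun n => ?_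
      have : (4 * (n : ℝ) + 3) = 4 * ((n : ℝ) + 3 / 4) := by ring
      rw [this, mul_pow]
      field_simp
    have h := pdx_gen (3 / 4) i hs
    rw [hur34 (i + 2) (by omega)] at h
    exact h

/-- the odd values of `β` are rational multiples of the powers of `π` -/
lemma be_odd (j : ℕ) (hj : 1 ≤ j) : ∃ q : ℚ, be (2 * j + 1) = q * Real.pi ^ (2 * j + 1) := by
  have h := hasSum_one_div_nat_pow_mul_sin (k := j) (by omega) (x := 1 / 4) ⟨by norm_num, by norm_num⟩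
  have hs := h.summable
  have he : Summable (fun n : ℕ => (fun n : ℕ => 1 / (n : ℝ) ^ (2 * j + 1) * Real.sin (2 * Real.pi * n * (1 / 4))) (2 * n)) :=
    hs.comp_injective (i := fun n : ℕ => 2 * n) (fun a b h => by
      have : 2 * a = 2 * b := h
      omega)
  have ho : Summable (fun n : ℕ => (fun n : ℕ => 1 / (n : ℝ) ^ (2 * j + 1) * Real.sin (2 * Real.pi * n * (1 / 4))) (2 * n + 1)) :=
    hs.comp_injective (i := fun n : ℕ => 2 * n + 1) (fun a b h => by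
      have : 2 * a + 1 = 2 * b + 1 := h
      omega)
  have h3 := tsum_even_add_odd (f := fun n : ℕ => 1 / (n : ℝ) ^ (2 * j + 1) * Real.sin (2 * Real.pi * n * (1 / 4))) he ho
  have e1 : (∑' n : ℕ, (fun n : ℕ => 1 / (n : ℝ) ^ (2 * j + 1) * Real.sin (2 * Real.pi * n * (1 / 4))) (2 * n)) = 0 := by
    refine (tsum_congr fun n => ?_).trans tsum_zero
    have : 2 * Real.pi * ((2 * n : ℕ) : ℝ) * (1 / 4) = (n : ℝ) * Real.pi := by push_cast; ring
    simp only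
    rw [this, Real.sin_nat_mul_pi, mul_zero]
  have e2 : (∑' n : ℕ, (fun n : ℕ => 1 / (n : ℝ) ^ (2 * j + 1) * Real.sin (2 * Real.pi * n * (1 / 4))) (2 * n + 1)) =
      be (2 * j + 1) := by
    rw [be]
    refine tsum_congr fun n => ?_
    have h5 : 2 * Real.pi * ((2 * n + 1 : ℕ) : ℝ) * (1 / 4) = Real.pi / 2 + (n : ℝ) * Real.pi := by push_cast; ring
    simp only
    rw [h5, Real.sin_add_nat_mul_pi, Real.sin_pi_div_two]
    push_cast
    ring
  rw [h.tsum_eq, e1, e2, zero_add] at h3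
  refine ⟨(-1) ^ (j + 1) * 2 ^ (2 * j + 1) / 2 / (2 * j + 1).factorial * (Polynomial.bernoulli (2 * j + 1)).eval (1 / 4), ?_⟩
  rw [h3]
  have h6 : (Polynomial.map (algebraMap ℚ ℝ) (Polynomial.bernoulli (2 * j + 1))).eval (1 / 4 : ℝ) =
      (((Polynomial.bernoulli (2 * j + 1)).eval (1 / 4) : ℚ) : ℝ) := by
    have : (1 / 4 : ℝ) = algebraMap ℚ ℝ (1 / 4) := by norm_num
    rw [this, Polynomial.eval_map_algebraMap, Polynomial.aeval_algebraMap_apply]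
    simp
  rw [h6]
  push_cast
  ring

lemma be_odd_mem {T : Set ℝ} (hpi : Real.pi ∈ clF T) (j : ℕ) (hj : 1 ≤ j) : be (2 * j + 1) ∈ clF T := by
  obtain ⟨q, hq⟩ := be_odd j hj
  rw [hq]
  exact (clF T).mul_mem (rat_mem T q) ((clF T).pow_mem hpi _)

end Pool.Agent.Helper767_G4
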