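import Pool.Agent.Helper767_G4.Mem

/-!
# Level four
-/

set_option autoImplicit false

open Filter Topology Set

namespace Pool.Agent.Helper767_G4

open Pool.Agent.R352.E (psi pd pdx Gamma_deriv zt clF subset_clF clF_mono clF_le of_pow rat_mem dl EE EE_mem)
open Pool.Agent.R352.T (EA NA ga NA_mem NA_zero EA_mem EA_alg_Q PI)

lemma cast4 : (((1 / 4 : ℚ) : ℚ) : ℝ) = 1 / 4 := by push_cast; rfl
lemma cast2 : (((1 / 2 : ℚ) : ℚ) : ℝ) = 1 / 2 := by push_cast; rfl
lemma cast34 : (((3 / 4 : ℚ) : ℚ) : ℝ) = 3 / 4 := by push_cast; rfl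

lemma dga4 : dga (1 / 4) = -(Real.eulerMascheroniConstant + 3 * Real.log 2 + Real.pi / 2) := by
  have h := psi_dga (a := 1 / 4) (by norm_num)
  have h2 : (((1 / 4 : ℝ) : ℝ) : ℂ) = 1 / 4 := by push_cast; rfl
  rw [h2, psi4] at h
  exact (Complex.ofReal_injective h).symm

lemma dga34 : dga (3 / 4) = -(Real.eulerMascheroniConstant + 3 * Real.log 2 - Real.pi / 2) := by
  have h := psi_dga (a := 3 / 4) (by norm_num)
  have h2 : (((3 / 4 : ℝ) : ℝ) : ℂ) = 3 / 4 := by push_cast; rfl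
  rw [h2, psi34] at h
  exact (Complex.ofReal_injective h).symm

lemma dga2 : dga (1 / 2) = -(Real.eulerMascheroniConstant + 2 * Real.log 2) := by
  have h := psi_dga (a := 1 / 2) (by norm_num)
  have h2 : (((1 / 2 : ℝ) : ℝ) : ℂ) = 1 / 2 := by push_cast; rfl
  rw [h2, Pool.Agent.R352.T.psi_half] at h
  have h3 := (Complex.ofReal_injective h).symm
  rw [h3, Pool.Agent.R352.T.ch]

lemma Gamma34 : Real.Gamma (3 / 4) = Real.pi * Real.sqrt 2 / Real.Gamma (1 / 4) := by
  have h := Real.Gamma_mul_Gamma_one_sub (1 / 4)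
  have e : (1 : ℝ) - 1 / 4 = 3 / 4 := by norm_num
  have e2 : Real.pi * (1 / 4) = Real.pi / 4 := by ring
  rw [e, e2, Real.sin_pi_div_four] at h
  have h1 : Real.Gamma (1 / 4) ≠ 0 := (Real.Gamma_pos_of_pos (by norm_num)).ne'
  have h2 : Real.sqrt 2 ≠ 0 := by positivity
  have h3 : Real.sqrt 2 * Real.sqrt 2 = 2 := Real.mul_self_sqrt (by norm_num)
  rw [eq_div_iff h1, mul_comm, h]
  field_simp
  rw [pow_two, h3]

lemma sqrt2_mem (T : Set ℝ) : Real.sqrt 2 ∈ clF T := by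
  refine of_pow (n := 2) (by norm_num) ?_
  rw [Real.sq_sqrt (by norm_num)]
  exact_mod_cast natCast_mem (clF T) 2

lemma ofN (T : Set ℝ) (n : ℕ) : ((n : ℕ) : ℝ) ∈ clF T := natCast_mem (clF T) n

lemma two_mem (T : Set ℝ) : (2 : ℝ) ∈ clF T := by exact_mod_cast ofN T 2
lemma three_mem (T : Set ℝ) : (3 : ℝ) ∈ clF T := by exact_mod_cast ofN T 3
lemma four_mem (T : Set ℝ) : (4 : ℝ) ∈ clF T := by exact_mod_cast ofN T 4

/-- the four parameters -/
def A4 : Set ℚ := {1 / 4, 1 / 2, 3 / 4, 1}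

lemma A4_pos {a : ℚ} (ha : a ∈ A4) : 0 < a ∧ a ≤ 1 := by
  rcases ha with rfl | rfl | rfl | rfl <;> norm_num

lemma Gamma_mem {a : ℚ} (ha : a ∈ A4) {T : Set ℝ} (hpi : Real.pi ∈ clF T) (hG : Real.Gamma (1 / 4) ∈ clF T) :
    Real.Gamma a ∈ clF T := by
  rcases ha with rfl | rfl | rfl | rfl
  · rw [cast4]; exact hG
  · rw [cast2, Real.Gamma_one_half_eq]
    exact of_pow (n := 2) (by norm_num) (by rw [Real.sq_sqrt Real.pi_pos.le]; exact hpi)
  · rw [cast34, Gamma34]
    exact (clF T).div_mem ((clF T).mul_mem hpi (sqrt2_mem T)) hG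
  · rw [Rat.cast_one, Real.Gamma_one]
    exact (clF T).one_mem

lemma dga_mem {a : ℚ} (ha : a ∈ A4) {T : Set ℝ} (hpi : Real.pi ∈ clF T) (h2 : Real.log 2 ∈ clF T) {u : ℝ}
    (hu : Real.eulerMascheroniConstant + u ∈ clF T) : dga a - u ∈ clF T := by
  rcases ha with rfl | rfl | rfl | rfl
  · rw [cast4, dga4]
    have e : -(Real.eulerMascheroniConstant + 3 * Real.log 2 + Real.pi / 2) - u =
      -((Real.eulerMascheroniConstant + u) + 3 * Real.log 2 + Real.pi / 2) := by ring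
    rw [e]
    exact (clF T).neg_mem ((clF T).add_mem ((clF T).add_mem hu ((clF T).mul_mem (three_mem T) h2))
      ((clF T).div_mem hpi (two_mem T)))
  · rw [cast2, dga2]
    have e : -(Real.eulerMascheroniConstant + 2 * Real.log 2) - u =
      -((Real.eulerMascheroniConstant + u) + 2 * Real.log 2) := by ring
    rw [e]
    exact (clF T).neg_mem ((clF T).add_mem hu ((clF T).mul_mem (two_mem T) h2))
  · rw [cast34, dga34]
    have e : -(Real.eulerMascheroniConstant + 3 * Real.log 2 - Real.pi / 2) - u =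
      -((Real.eulerMascheroniConstant + u) + 3 * Real.log 2 - Real.pi / 2) := by ring
    rw [e]
    exact (clF T).neg_mem ((clF T).sub_mem ((clF T).add_mem hu ((clF T).mul_mem (three_mem T) h2))
      ((clF T).div_mem hpi (two_mem T)))
  · rw [Rat.cast_one, dga_one]
    have e : -Real.eulerMascheroniConstant - u = -(Real.eulerMascheroniConstant + u) := by ring
    rw [e]
    exact (clF T).neg_mem hu

lemma hz_mem {a : ℚ} (ha : a ∈ A4) {T : Set ℝ} {k : ℕ} (hk : 2 ≤ k) (h1 : zt k ∈ clF T) (h2 : be k ∈ clF T) :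
    hz k a ∈ clF T := by
  have p2 : (2 : ℝ) ^ k ∈ clF T := (clF T).pow_mem (two_mem T) _
  have p4 : (4 : ℝ) ^ k ∈ clF T := (clF T).pow_mem (four_mem T) _
  rcases ha with rfl | rfl | rfl | rfl
  · rw [cast4, hz, hur4 k hk]
    exact (clF T).add_mem ((clF T).mul_mem ((clF T).div_mem ((clF T).sub_mem p4 p2) (two_mem T)) h1)
      ((clF T).mul_mem ((clF T).div_mem p4 (two_mem T)) h2)
  · rw [cast2, hz, Pool.Agent.R352.T.zt_odd k hk]
    exact (clF T).mul_mem ((clF T).sub_mem p2 (clF T).one_mem) h1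
  · rw [cast34, hz, hur34 k hk]
    exact (clF T).sub_mem ((clF T).mul_mem ((clF T).div_mem ((clF T).sub_mem p4 p2) (two_mem T)) h1)
      ((clF T).mul_mem ((clF T).div_mem p4 (two_mem T)) h2)
  · rw [Rat.cast_one, hz_one]
    exact h1

end Pool.Agent.Helper767_G4
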