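import Pool.Agent.Helper767_G4.Beta

/-!
# The numbers `Λ_{a,l}(x)`, `0 < a ≤ 1` rational: algebraic independence and membership
-/

set_option autoImplicit false

open Filter Topology Set

namespace Pool.Agent.Helper767_G4

open Pool.Agent.R352.E (psi pd pdx Gamma_deriv zt clF subset_clF clF_mono clF_le of_pow rat_mem dl EE EE_mem)
open Pool.Agent.R352.T (EA NA ga NA_mem NA_zero EA_mem EA_alg_Q PI)

/-- `ψ = Γ'/Γ` -/
noncomputable def dga (a : ℝ) : ℝ := deriv Real.Gamma a / Real.Gamma a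

/-- `ζ(k, a)` -/
noncomputable def hz (k : ℕ) (a : ℝ) : ℝ := ∑' n : ℕ, 1 / ((n : ℝ) + a) ^ k

lemma summ_hz {a : ℝ} (ha : 0 < a) (k : ℕ) (hk : 2 ≤ k) : Summable (fun n : ℕ => 1 / ((n : ℝ) + a) ^ k) := by
  refine (summable_nat_add_iff 1).1 ?_
  have h := Pool.Agent.R352.T.summ_one k hk
  refine Summable.of_nonneg_of_le (fun n => by positivity) (fun n => ?_) h
  push_cast
  refine one_div_le_one_div_of_le (by positivity) ?_
  exact pow_le_pow_left₀ (by positivity) (by linarith) _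

lemma psi_real {a : ℝ} (ha : 0 < a) : ∃ r : ℝ, psi (a : ℂ) = (r : ℂ) := by
  refine ⟨-Real.eulerMascheroniConstant - 1 / a + ∑' n : ℕ, (1 / ((n : ℝ) + 1) - 1 / (a + ((n : ℝ) + 1))), ?_⟩
  rw [psi]
  push_cast
  rfl

lemma psi_dga {a : ℝ} (ha : 0 < a) : psi (a : ℂ) = ((dga a : ℝ) : ℂ) := by
  obtain ⟨r, hr⟩ := psi_real ha
  have h1 := (Gamma_deriv (s := (a : ℂ)) (by simpa using ha)).real_of_complex
  have h2 : (fun x : ℝ => (Complex.Gamma x).re) = Real.Gamma := by
    ext x; rw [Complex.Gamma_ofReal]; simp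
  rw [h2, hr, Complex.Gamma_ofReal] at h1
  have h3 : (((Real.Gamma a : ℝ) : ℂ) * (r : ℂ)).re = Real.Gamma a * r := by
    rw [← Complex.ofReal_mul, Complex.ofReal_re]
  rw [h3] at h1
  rw [hr, dga, h1.deriv, mul_div_cancel_left₀ _ (Real.Gamma_pos_of_pos ha).ne']

/-- the values of the derivatives of the digamma function at `a` -/
noncomputable def cg (a : ℝ) : ℕ → ℝ
  | 0 => dga a
  | (i + 1) => (-1) ^ i * (i + 1).factorial * hz (i + 2) a

lemma pd_gen {a : ℝ} (ha : 0 < a) (i : ℕ) : pd i (a : ℂ) = ((cg a i : ℝ) : ℂ) := by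
  cases i with
  | zero => exact psi_dga ha
  | succ i => exact pdx_gen a i (summ_hz ha (i + 2) (by omega))

/-- `Λ_{a,l}(x) = ∫_0^∞ log (1 + s / x)^l (1 + s / x)^(a - 1) e^(-s) ds` -/
noncomputable def Lam (a : ℝ) (l : ℕ) (x : ℝ) : ℝ :=
  ∫ s in Ioi (0 : ℝ), Real.log (1 + s / x) ^ l * (1 + s / x) ^ (a - 1) * Real.exp (-s)

lemma Lam_ga (a : ℝ) (l : ℕ) (x : ℝ) : Lam a l x = ga a l x := by
  rw [Lam, ga]
  refine MeasureTheory.setIntegral_congr_fun measurableSet_Ioi fun s _ => ?_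
  ring

lemma Lam_dl (l : ℕ) (x : ℝ) : Lam 1 l x = dl l x := by
  rw [Lam, dl]
  refine MeasureTheory.setIntegral_congr_fun measurableSet_Ioi fun s _ => ?_
  simp

lemma EE_EA (l : ℕ) (x : ℝ) : EE l x = EA 0 l x := by
  rw [EE, EA]
  simp

/-- the index set: `(a, l, x)` -/
def Good (p : ℚ × ℕ × ℚ) : Prop := 0 < p.1 ∧ p.1 ≤ 1 ∧ 0 < p.2.2 ∧ (p.1 = 1 → 0 < p.2.1)

/-- the values of the entire functions -/
noncomputable def ZZ (p : ℚ × ℕ × ℚ) : ℝ := if p.1 = 1 then EA 0 p.2.1 p.2.2 else EA p.1 (p.2.1 + 1) p.2.2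

theorem AI_gen {P : Type*} (f : P → ℚ × ℕ × ℚ) (hf : Function.Injective f) (hg : ∀ p, Good (f p)) :
    AlgebraicIndependent ℚ (fun o : Option P => o.elim (Real.exp 1) (fun p => ZZ (f p))) := by
  let g0 : P → PI := fun p => if h : (f p).1 = 1 then ⟨((f p).2.1 - 1, 0, (f p).2.2), le_rfl, by norm_num, (hg p).2.2.1⟩
    else ⟨((f p).2.1, (f p).1, (f p).2.2), (hg p).1.le, lt_of_le_of_ne (hg p).2.1 h, (hg p).2.2.1⟩
  have hg0 : Function.Injective g0 := by
    intro p p' h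
    by_cases h1 : (f p).1 = 1
    · by_cases h2 : (f p').1 = 1
      · simp only [g0, dif_pos h1, dif_pos h2, Subtype.mk.injEq, Prod.mk.injEq, true_and] at h
        have h3 := (hg p).2.2.2 h1
        have h4 := (hg p').2.2.2 h2
        refine hf (Prod.ext (h1.trans h2.symm) (Prod.ext (by omega) h.2))
      · simp only [g0, dif_pos h1, dif_neg h2, Subtype.mk.injEq, Prod.mk.injEq] at h
        exact absurd h.2.1 (hg p').1.ne
    · by_cases h2 : (f p').1 = 1
      · simp only [g0, dif_neg h1, dif_pos h2, Subtype.mk.injEq, Prod.mk.injEq] at h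
        exact absurd h.2.1.symm (hg p).1.ne
      · simp only [g0, dif_neg h1, dif_neg h2, Subtype.mk.injEq, Prod.mk.injEq] at h
        exact hf (Prod.ext h.2.1 (Prod.ext h.1 h.2.2))
  have h2 := EA_alg_Q.comp (Option.map g0) (Option.map_injective hg0)
  convert h2 using 1
  ext o
  cases o with
  | none => rfl
  | some p =>
    simp only [Option.elim_some, Function.comp_apply, Option.map_some]
    by_cases h1 : (f p).1 = 1
    · have h3 := (hg p).2.2.2 h1
      simp only [ZZ, g0, if_pos h1, dif_pos h1]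
      rw [Nat.sub_add_cancel h3, Rat.cast_zero]
    · simp only [ZZ, g0, if_neg h1, dif_neg h1]

lemma dga_one : dga 1 = -Real.eulerMascheroniConstant := by
  rw [dga, Real.Gamma_one, div_one, Real.eulerMascheroniConstant_eq_neg_deriv, neg_neg]

lemma hz_one (k : ℕ) : hz k 1 = zt k := rfl

/-- membership -/
theorem ZZ_mem {p : ℚ × ℕ × ℚ} (hp : Good p) {T : Set ℝ} (he : Real.exp 1 ∈ clF T)
    (hG : Real.Gamma p.1 ∈ clF T) (h0 : 1 ≤ p.2.1 → dga p.1 - Real.log p.2.2 ∈ clF T)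
    (hk : ∀ k, 2 ≤ k → k ≤ p.2.1 → hz k p.1 ∈ clF T) (hL : Lam p.1 p.2.1 p.2.2 ∈ clF T) : ZZ p ∈ clF T := by
  obtain ⟨a, l, x⟩ := p
  obtain ⟨ha, ha1, hx, hl⟩ := hp
  simp only at ha ha1 hx hl he hG h0 hk hL
  have ha' : (0 : ℝ) < a := by exact_mod_cast ha
  by_cases h1 : a = 1
  · subst h1
    have hl' := hl rfl
    rw [ZZ, if_pos rfl]
    simp only
    rw [← EE_EA]
    refine EE_mem hx he ?_ l (fun k h1 h2 => ?_) ?_
    · have h3 := h0 hl'
      rw [Rat.cast_one, dga_one] at h3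
      have h4 : Real.eulerMascheroniConstant + Real.log x = -(-Real.eulerMascheroniConstant - Real.log x) := by ring
      rw [h4]
      exact (clF T).neg_mem h3
    · have h3 := hk k h1 h2
      rw [Rat.cast_one, hz_one] at h3
      exact h3
    · rw [Rat.cast_one, Lam_dl] at hL
      exact hL
  · rw [ZZ, if_neg h1]
    simp only
    refine EA_mem ha hx he l ?_ (by rw [← Lam_ga]; exact hL)
    rcases Nat.eq_zero_or_pos l with rfl | hl0
    · rw [NA_zero ha']
      exact hG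
    · refine NA_mem ha' (pd_gen ha') hG (h0 hl0) l (fun i hi hi' => ?_)
      obtain ⟨j, rfl⟩ : ∃ j, i = j + 1 := ⟨i - 1, by omega⟩
      rw [cg]
      exact (clF T).mul_mem ((clF T).mul_mem ((clF T).pow_mem ((clF T).neg_mem (clF T).one_mem) _) (natCast_mem _ _))
        (hk _ (by omega) (by omega))

end Pool.Agent.Helper767_G4
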