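import Pool.Agent.R352.T.Count2

/-!
# The digamma function at `1/4` and `3/4`
-/

set_option autoImplicit false

open Filter Topology Set Complex

namespace Pool.Agent.Helper767_G4

open Pool.Agent.R352.E (psi pd pdx Gamma_deriv zt)

lemma re4 : (0 : ℝ) < (1 / 4 : ℂ).re := by norm_num
lemma re34 : (0 : ℝ) < (3 / 4 : ℂ).re := by norm_num
lemma re2 : (0 : ℝ) < (1 / 2 : ℂ).re := by norm_num

lemma Gamma_ne4 : Gamma (1 / 4) ≠ 0 := Gamma_ne_zero_of_re_pos re4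
lemma Gamma_ne34 : Gamma (3 / 4) ≠ 0 := Gamma_ne_zero_of_re_pos re34
lemma Gamma_ne2 : Gamma (1 / 2) ≠ 0 := Gamma_ne_zero_of_re_pos re2

lemma sin4 : Complex.sin ((Real.pi : ℂ) * (1 / 4)) = ((Real.sqrt 2 / 2 : ℝ) : ℂ) := by
  have h : (Real.pi : ℂ) * (1 / 4) = ((Real.pi / 4 : ℝ) : ℂ) := by push_cast; ring
  rw [h, ← ofReal_sin, Real.sin_pi_div_four]

lemma cos4 : Complex.cos ((Real.pi : ℂ) * (1 / 4)) = ((Real.sqrt 2 / 2 : ℝ) : ℂ) := by
  have h : (Real.pi : ℂ) * (1 / 4) = ((Real.pi / 4 : ℝ) : ℂ) := by push_cast; ring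
  rw [h, ← ofReal_cos, Real.cos_pi_div_four]

/-- reflection -/
lemma psi_sub : psi (3 / 4) - psi (1 / 4) = Real.pi := by
  have h1 : HasDerivAt (fun s : ℂ => Gamma (1 - s)) (-(Gamma (3 / 4) * psi (3 / 4))) (1 / 4) := by
    have h0 : HasDerivAt (fun s : ℂ => 1 - s) (-1) (1 / 4) := by
      simpa using (hasDerivAt_id (1 / 4 : ℂ)).const_sub 1
    have e : (3 / 4 : ℂ) = 1 - 1 / 4 := by norm_num
    have h2 := (Gamma_deriv re34)
    rw [e] at h2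
    have h3 := h2.comp (1 / 4 : ℂ) h0
    have e2 : (1 : ℂ) - 1 / 4 = 3 / 4 := by norm_num
    rw [e2] at h3
    refine (h3.congr_deriv ?_)
    ring
  have h2 := (Gamma_deriv re4).mul h1
  have hs0 : Complex.sin ((Real.pi : ℂ) * (1 / 4)) ≠ 0 := by
    rw [sin4, ofReal_ne_zero]
    positivity
  have h3 : HasDerivAt (fun s : ℂ => (Real.pi : ℂ) / Complex.sin (Real.pi * s))
      (-((Real.pi : ℂ) * (Complex.cos (Real.pi * (1 / 4)) * Real.pi)) / Complex.sin (Real.pi * (1 / 4)) ^ 2) (1 / 4) := by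
    have h4 : HasDerivAt (fun s : ℂ => (Real.pi : ℂ) * s) Real.pi (1 / 4) := by
      simpa using (hasDerivAt_id (1 / 4 : ℂ)).const_mul (Real.pi : ℂ)
    have h5 := (h4.csin)
    have h6 := (hasDerivAt_const (1 / 4 : ℂ) (Real.pi : ℂ)).div h5 hs0
    refine h6.congr_deriv ?_
    ring
  have h4 : HasDerivAt (fun s : ℂ => (Real.pi : ℂ) / Complex.sin (Real.pi * s))
      (Gamma (1 / 4) * psi (1 / 4) * Gamma (1 - 1 / 4) + Gamma (1 / 4) * -(Gamma (3 / 4) * psi (3 / 4))) (1 / 4) := by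
    refine h2.congr_of_eventuallyEq (Eventually.of_forall fun s => ?_)
    simp only [Pi.mul_apply]
    rw [Gamma_mul_Gamma_one_sub]
  have h5 := h4.unique h3
  have e : (1 : ℂ) - 1 / 4 = 3 / 4 := by norm_num
  have h6 : Gamma (1 / 4) * Gamma (3 / 4) = (Real.pi : ℂ) / Complex.sin (Real.pi * (1 / 4)) := by
    rw [← e, Gamma_mul_Gamma_one_sub]
  rw [e] at h5
  have h7 : Gamma (1 / 4) * Gamma (3 / 4) * (psi (3 / 4) - psi (1 / 4)) =
      (Real.pi : ℂ) / Complex.sin (Real.pi * (1 / 4)) * Real.pi := by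
    have h8 : Gamma (1 / 4) * Gamma (3 / 4) * (psi (3 / 4) - psi (1 / 4)) =
        -(-((Real.pi : ℂ) * (Complex.cos (Real.pi * (1 / 4)) * Real.pi)) / Complex.sin (Real.pi * (1 / 4)) ^ 2) := by
      rw [← h5]; ring
    rw [h8, cos4, sin4]
    have h9 : ((Real.sqrt 2 / 2 : ℝ) : ℂ) ≠ 0 := by
      rw [ofReal_ne_zero]; positivity
    field_simp
  rw [h6] at h7
  have hne : (Real.pi : ℂ) / Complex.sin (Real.pi * (1 / 4)) ≠ 0 := by
    rw [← h6]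
    exact mul_ne_zero Gamma_ne4 Gamma_ne34
  exact mul_left_cancel₀ hne h7

/-- duplication -/
lemma psi_add : psi (1 / 4) + psi (3 / 4) = -(2 * (Real.eulerMascheroniConstant + 3 * Real.log 2) : ℝ) := by
  have h1 : HasDerivAt (fun s : ℂ => Gamma (s + 1 / 2)) (Gamma (3 / 4) * psi (3 / 4)) (1 / 4) := by
    have h0 : HasDerivAt (fun s : ℂ => s + 1 / 2) 1 (1 / 4) := by
      simpa using (hasDerivAt_id (1 / 4 : ℂ)).add_const (1 / 2)
    have e2 : (1 / 4 : ℂ) + 1 / 2 = 3 / 4 := by norm_num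
    have h3 := HasDerivAt.comp_of_eq (h₂ := Gamma) (1 / 4 : ℂ) (Gamma_deriv re34) h0 e2.symm
    rw [mul_one] at h3
    exact h3
  have h2 := (Gamma_deriv re4).mul h1
  have h3 : HasDerivAt (fun s : ℂ => Gamma (2 * s)) (Gamma (1 / 2) * psi (1 / 2) * 2) (1 / 4) := by
    have h0 : HasDerivAt (fun s : ℂ => 2 * s) 2 (1 / 4) := by
      simpa using (hasDerivAt_id (1 / 4 : ℂ)).const_mul (2 : ℂ)
    have e2 : (2 : ℂ) * (1 / 4) = 1 / 2 := by norm_num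
    exact HasDerivAt.comp_of_eq (h₂ := Gamma) (1 / 4 : ℂ) (Gamma_deriv re2) h0 e2.symm
  have h4 : HasDerivAt (fun s : ℂ => (2 : ℂ) ^ (1 - 2 * s)) ((2 : ℂ) ^ (1 - 2 * (1 / 4 : ℂ)) * Complex.log 2 * (-2)) (1 / 4) := by
    have h0 : HasDerivAt (fun s : ℂ => 1 - 2 * s) (-2) (1 / 4) := by
      simpa using ((hasDerivAt_id (1 / 4 : ℂ)).const_mul (2 : ℂ)).const_sub 1
    exact h0.const_cpow (Or.inl two_ne_zero)
  have h5 := (h3.mul h4).mul_const ((√Real.pi : ℝ) : ℂ)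
  have h6 : HasDerivAt (fun s : ℂ => Gamma s * Gamma (s + 1 / 2))
      (((Gamma (1 / 2) * psi (1 / 2) * 2) * (2 : ℂ) ^ (1 - 2 * (1 / 4 : ℂ)) +
        Gamma (2 * (1 / 4)) * ((2 : ℂ) ^ (1 - 2 * (1 / 4 : ℂ)) * Complex.log 2 * (-2))) * ((√Real.pi : ℝ) : ℂ)) (1 / 4) := by
    refine h5.congr_of_eventuallyEq (Eventually.of_forall fun s => ?_)
    simp only [Pi.mul_apply]
    rw [Gamma_mul_Gamma_add_half]
  have h7 := h2.unique h6
  have e1 : (1 / 4 : ℂ) + 1 / 2 = 3 / 4 := by norm_num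
  have e2 : (2 : ℂ) * (1 / 4) = 1 / 2 := by norm_num
  have h8 : Gamma (1 / 4) * Gamma (3 / 4) = Gamma (1 / 2) * (2 : ℂ) ^ (1 - 2 * (1 / 4 : ℂ)) * ((√Real.pi : ℝ) : ℂ) := by
    rw [← e1, Gamma_mul_Gamma_add_half, e2]
  have h9 : Gamma (1 / 4) * Gamma (3 / 4) * (psi (1 / 4) + psi (3 / 4)) =
      Gamma (1 / 4) * Gamma (3 / 4) * (2 * psi (1 / 2) - 2 * Complex.log 2) := by
    rw [e1] at h7
    have h10 : Gamma (1 / 4) * Gamma (3 / 4) * (psi (1 / 4) + psi (3 / 4)) =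
        Gamma (1 / 4) * psi (1 / 4) * Gamma (3 / 4) + Gamma (1 / 4) * (Gamma (3 / 4) * psi (3 / 4)) := by ring
    rw [h10, h7, h8, e2]
    ring
  have hne : Gamma (1 / 4) * Gamma (3 / 4) ≠ 0 := mul_ne_zero Gamma_ne4 Gamma_ne34
  have h10 := mul_left_cancel₀ hne h9
  rw [h10, Pool.Agent.R352.T.psi_half, Pool.Agent.R352.T.ch]
  have h11 : Complex.log 2 = ((Real.log 2 : ℝ) : ℂ) := by
    rw [ofReal_log zero_le_two]; norm_num
  rw [h11]
  push_cast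
  ring

lemma psi4 : psi (1 / 4) = ((-(Real.eulerMascheroniConstant + 3 * Real.log 2 + Real.pi / 2) : ℝ) : ℂ) := by
  have h1 := psi_add
  have h2 := psi_sub
  have h3 : psi (1 / 4) = ((psi (1 / 4) + psi (3 / 4)) - (psi (3 / 4) - psi (1 / 4))) / 2 := by ring
  rw [h3, h1, h2]
  push_cast
  ring

lemma psi34 : psi (3 / 4) = ((-(Real.eulerMascheroniConstant + 3 * Real.log 2 - Real.pi / 2) : ℝ) : ℂ) := by
  have h1 := psi_add
  have h2 := psi_sub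
  have h3 : psi (3 / 4) = ((psi (1 / 4) + psi (3 / 4)) + (psi (3 / 4) - psi (1 / 4))) / 2 := by ring
  rw [h3, h1, h2]
  push_cast
  ring

end Pool.Agent.Helper767_G4
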